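import Pool.Agent.R796.SSFinal

/-!
# Vanishing of the late columns of the cubic dimension spectral sequence, with an explicit bound

Definitions (`Pool.Agent.R796.SSDefs`), following the problem text:
* `V n = {0,1}^n`, `IsSimplex r s`: `s` is a nonempty set of vertices with pairwise Hamming
  distance at most `r`; `cubicDim s`: the number of coordinates which are not constant on `s`;
* chains are functions on the finite sets of vertices; `bd` is the simplicial boundary operator,
  with every simplex oriented by the lexicographic order; `Ch k n r p m = C_m(X^{n,r}_p)`;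
* `E0 k n r p m`: `E^0_{p,q} = C_m(X_p) / C_m(X_{p-1})` with `m = p + q`, and `d0` is induced by
  `bd`;
* `E1 k n r p q`: `E^1_{p,q}(n,r) = H_{p+q}(E^0_{p,•})`, kernel of `d^0` modulo image of `d^0`.
-/

set_option autoImplicit false

universe u

namespace Pool.Agent.Results.MP_a4f165_gt.LateColumns

open Pool.Agent.R796.SS

/-- With `s(r) = ∑_{i=1}^r (r+1)^i` one has `E^1_{p,q}(n,r) = 0` for all `n` and all integers
`p > s(r)` and `q`, over every field. -/
theorem result (k : Type u) [Field k] (r n : ℕ) (p q : ℤ)
    (hp : ((∑ i ∈ Finset.Icc 1 r, (r + 1) ^ i : ℕ) : ℤ) < p) :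
    Subsingleton (E1 k n r p q) :=
  E1_subsingleton hp

end Pool.Agent.Results.MP_a4f165_gt.LateColumns
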